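import Pool.Agent.CHS.Abelian
import Pool.Agent.MotP.Defs

/-!
# Abelian categories: comparison of the definitions, equivalences (MP_6c4da4_ag)
-/

set_option autoImplicit false

open CategoryTheory Limits

universe v₁ v₂ u₁ u₂

namespace CHS

section

variable {C : Type u₁} [Category.{v₁} C] [Preadditive C]

theorem IsAbelian.toMotP (h : IsAbelian C) : MotP.IsAbelian C := by
  obtain ⟨A, rfl⟩ := h
  exact ⟨inferInstance, inferInstance, fun X Y f => inferInstance⟩

theorem IsAbelian.hasFiniteProducts (h : IsAbelian C) : HasFiniteProducts C := by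
  obtain ⟨A, -⟩ := h
  infer_instance

theorem IsAbelian.hasFiniteBiproducts (h : IsAbelian C) : HasFiniteBiproducts C := by
  have := h.hasFiniteProducts
  exact HasFiniteBiproducts.of_hasFiniteProducts

theorem IsAbelian.of_motP [HasFiniteProducts C] (h : MotP.IsAbelian C) : IsAbelian C := by
  obtain ⟨h1, h2, h3⟩ := h
  exact ⟨Abelian.ofCoimageImageComparisonIsIso, rfl⟩

/-- The two definitions agree if `C` has finite products. -/
theorem isAbelian_iff_motP [HasFiniteProducts C] : IsAbelian C ↔ MotP.IsAbelian C :=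
  ⟨fun h => h.toMotP, IsAbelian.of_motP⟩

/-- `IsAbelian C`: kernels, cokernels, the comparison isomorphisms, and finite products. -/
theorem isAbelian_iff_motP_and : IsAbelian C ↔ MotP.IsAbelian C ∧ HasFiniteProducts C := by
  refine ⟨fun h => ⟨h.toMotP, h.hasFiniteProducts⟩, fun h => ?_⟩
  have := h.2
  exact IsAbelian.of_motP h.1

end

section

variable {C : Type u₁} [Category.{v₁} C] [Preadditive C]
  {D : Type u₂} [Category.{v₂} D] [Preadditive D]

theorem IsAbelian.of_equivalence (F : C ⥤ D) [F.IsEquivalence] (h : IsAbelian D) :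
    IsAbelian C := by
  obtain ⟨A, rfl⟩ := h
  have : HasFiniteProducts C := ⟨fun n => Adjunction.hasLimitsOfShape_of_equivalence F⟩
  exact ⟨abelianOfEquivalence F, rfl⟩

theorem isAbelian_iff_of_equivalence (F : C ⥤ D) [F.IsEquivalence] : IsAbelian C ↔ IsAbelian D :=
  ⟨fun h => IsAbelian.of_equivalence F.inv h, fun h => IsAbelian.of_equivalence F h⟩

omit [Preadditive C] [Preadditive D] in
/-- The restriction of an equivalence to full subcategories. -/
theorem lift_isEquivalence (F : C ⥤ D) [F.IsEquivalence] (P : ObjectProperty C)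
    (Q : ObjectProperty D) [Q.IsClosedUnderIsomorphisms] (hQ : ∀ X : C, P X ↔ Q (F.obj X)) :
    (Q.lift (P.ι ⋙ F) fun X => (hQ X.obj).1 X.property).IsEquivalence where
  faithful := inferInstance
  full := inferInstance
  essSurj := ⟨fun Y => by
    refine ⟨⟨F.objPreimage Y.obj, (hQ _).2 ?_⟩, ⟨Q.isoMk (F.objObjPreimageIso Y.obj)⟩⟩
    exact Q.prop_of_iso (F.objObjPreimageIso Y.obj).symm Y.property⟩

theorem isAbelian_full_iff (F : C ⥤ D) [F.IsEquivalence] (P : ObjectProperty C)
    (Q : ObjectProperty D) [Q.IsClosedUnderIsomorphisms] (hQ : ∀ X : C, P X ↔ Q (F.obj X)) :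
    IsAbelian P.FullSubcategory ↔ IsAbelian Q.FullSubcategory := by
  have := lift_isEquivalence F P Q hQ
  exact isAbelian_iff_of_equivalence (Q.lift (P.ι ⋙ F) fun X => (hQ X.obj).1 X.property)

end

end CHS
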