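import Mathlib

/-!
# Abelian categories (MP_6c4da4_ag)
-/

set_option autoImplicit false

universe v u

namespace CHS

/-- The category `C`, with the given addition of morphisms, is abelian (in the sense of Mathlib). -/
def IsAbelian (C : Type u) [CategoryTheory.Category.{v} C] [P : CategoryTheory.Preadditive C] :
    Prop :=
  ∃ A : CategoryTheory.Abelian C, A.toPreadditive = P

end CHS
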