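import Pool.Agent.CHS.Coh

/-!
# Dimensions of Chow groups and Betti numbers: definitions (MP_6c4da4_ag)
-/

set_option autoImplicit false

open CategoryTheory MonoidalCategory CartesianMonoidalCategory Limits

universe v u w x

namespace CHS

variable {V : Type u} [Category.{v} V] [CartesianMonoidalCategory V]

/-- The power `X^r` of a variety. -/
def pow (X : V) (r : ℕ) : V := (fun Y : V => Y ⊗ X)^[r] (𝟙_ V)

/-- The dimension of the space spanned by the set `s` of cycles. -/
noncomputable def ChowTheory.rank (T : ChowTheory.{v, u, w} V) {X : V} (s : Set (T.CH X)) :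
    Cardinal.{w} :=
  Module.rank ℚ (Submodule.span ℚ s)

namespace Cohomology

variable {T : ChowTheory.{v, u, w} V} (K : Cohomology.{v, u, w, x} T)

/-- The sum of the Betti numbers of `X` in even degrees. -/
noncomputable def even (X : V) : ℕ := Module.finrank ℂ (Module.End.eigenspace (K.sgn X) 1)

/-- The sum of the Betti numbers of `X` in odd degrees. -/
noncomputable def odd (X : V) : ℕ := Module.finrank ℂ (Module.End.eigenspace (K.sgn X) (-1))

/-- The inequality
`(r + 1) ^ (e ^ 2 + o ^ 2 + 4) * dim CH^(r d)(X^r × X^r) < (e + o + 1) ^ (2 r)`, where `d` is the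
dimension of `X` and `e`, `o` are the sums of the Betti numbers in even and in odd degrees. -/
def Small (X : V) (r : ℕ) : Prop :=
  ((r + 1) ^ (K.even X ^ 2 + K.odd X ^ 2 + 4) : ℕ) *
    T.rank (T.cyc (pow X r ⊗ pow X r) (T.dim (pow X r))) <
      ((K.even X + K.odd X + 1) ^ (2 * r) : ℕ)

end Cohomology

end CHS
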