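import Pool.Agent.CHS.Lem

/-!
# The category of Chow motives (MP_6c4da4_ag)
-/

set_option autoImplicit false

open CategoryTheory MonoidalCategory CartesianMonoidalCategory Limits

universe v u w

namespace CHS

variable {V : Type u} [Category.{v} V] [CartesianMonoidalCategory V] {T : ChowTheory.{v, u, w} V}

namespace Mot.Hom

variable {M N L K : Mot T}

def id (M : Mot T) : Hom M M := ⟨M.p, M.isHom_id⟩

def comp (f : Hom M N) (g : Hom N L) : Hom M L := ⟨T.cp f.val g.val, isHom_comp f g⟩

def add (f g : Hom M N) : Hom M N := ⟨f.val + g.val, isHom_add f g⟩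

def zero (M N : Mot T) : Hom M N := ⟨0, isHom_zero M N⟩

def neg (f : Hom M N) : Hom M N := ⟨-f.val, isHom_neg f⟩

theorem id_comp (f : Hom M N) : (id M).comp f = f := Hom.ext f.prop.2.1

theorem comp_id (f : Hom M N) : f.comp (id N) = f := Hom.ext f.prop.2.2

theorem assoc (f : Hom M N) (g : Hom N L) (h : Hom L K) : (f.comp g).comp h = f.comp (g.comp h) :=
  Hom.ext (T.cp_assoc f.val g.val h.val)

theorem add_assoc (f g h : Hom M N) : (f.add g).add h = f.add (g.add h) :=
  Hom.ext (_root_.add_assoc f.val g.val h.val)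

theorem zero_add (f : Hom M N) : (zero M N).add f = f := Hom.ext (_root_.zero_add f.val)

theorem neg_add (f : Hom M N) : f.neg.add f = zero M N := Hom.ext (_root_.neg_add_cancel f.val)

theorem add_comm (f g : Hom M N) : f.add g = g.add f := Hom.ext (_root_.add_comm f.val g.val)

theorem add_comp (f f' : Hom M N) (g : Hom N L) :
    (f.add f').comp g = (f.comp g).add (f'.comp g) := Hom.ext (T.add_cp f.val f'.val g.val)

theorem comp_add (f : Hom M N) (g g' : Hom N L) :
    f.comp (g.add g') = (f.comp g).add (f.comp g') := Hom.ext (T.cp_add f.val g.val g'.val)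

instance addCommGroup (M N : Mot T) : AddCommGroup (Hom M N) :=
  { @AddGroup.ofLeftAxioms (Hom M N) ⟨add⟩ ⟨neg⟩ ⟨zero M N⟩ add_assoc zero_add neg_add with
    add_comm := add_comm }

end Mot.Hom

instance : Category (Mot T) where
  Hom := Mot.Hom
  id := Mot.Hom.id
  comp := Mot.Hom.comp
  id_comp := Mot.Hom.id_comp
  comp_id := Mot.Hom.comp_id
  assoc := Mot.Hom.assoc

instance : Preadditive (Mot T) where
  homGroup := Mot.Hom.addCommGroup
  add_comp _ _ _ := Mot.Hom.add_comp
  comp_add _ _ _ := Mot.Hom.comp_add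

end CHS
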