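import Pool.Agent.CHS.Defs

/-!
# Cohomology over a finite field: definitions (MP_6c4da4_ag)
-/

set_option autoImplicit false

open CategoryTheory MonoidalCategory CartesianMonoidalCategory Limits TensorProduct

universe v u w x

namespace CHS

variable {V : Type u} [Category.{v} V] [CartesianMonoidalCategory V]

/-- `l`-adic cohomology of the smooth projective varieties over a finite field (with complex
coefficients, by the choice of an isomorphism of fields): `H X` is the direct sum of the `H^i(X)`,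
`gr X i = H^i(X)`.  Correspondences act on it; the Kuenneth formula and the Lefschetz trace formula
hold, and the eigenvalues of Frobenius on `H^i(X)` have absolute value `q ^ (i / 2)`. -/
structure Cohomology (T : ChowTheory.{v, u, w} V) where
  /-- the total cohomology of `X` -/
  H : V → ModuleCat.{x} ℂ
  fin : ∀ X, Module.Finite ℂ (H X)
  /-- `gr X i = H^i(X)` -/
  gr : ∀ X : V, ℤ → Submodule ℂ (H X)
  internal : ∀ X, DirectSum.IsInternal (gr X)
  /-- the sign operator: `(-1) ^ i` on `H^i(X)` -/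
  sgn : ∀ X, H X →ₗ[ℂ] H X
  sgn_apply : ∀ (X : V) (i : ℤ) (x : H X), x ∈ gr X i → sgn X x = (-1 : ℂ) ^ i • x
  /-- the action of a correspondence from `X` to `Y`: `x ↦ pr₂_* (pr₁^* x ∪ cl f)` -/
  act : ∀ {X Y : V}, T.CH (X ⊗ Y) → (H X →ₗ[ℂ] H Y)
  act_add : ∀ {X Y : V} (f g : T.CH (X ⊗ Y)) (x : H X), act (f + g) x = act f x + act g x
  act_id : ∀ (X : V) (x : H X), act (T.graph (𝟙 X)) x = x
  act_cp : ∀ {X Y Z : V} (f : T.CH (X ⊗ Y)) (g : T.CH (Y ⊗ Z)) (x : H X),
    act (T.cp f g) x = act g (act f x)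
  act_mem : ∀ {X Y : V} (r i : ℤ) (f : T.CH (X ⊗ Y)) (x : H X),
    f ∈ T.cyc (X ⊗ Y) (T.dim X + r) → x ∈ gr X i → act f x ∈ gr Y (i + 2 * r)
  /-- the Kuenneth isomorphism -/
  kunneth : ∀ X Y : V, (H X ⊗[ℂ] H Y) ≃ₗ[ℂ] H (X ⊗ Y)
  kunneth_act : ∀ {X Y X' Y' : V} (f : T.CH (X ⊗ Y)) (f' : T.CH (X' ⊗ Y')) (x : H X) (x' : H X'),
    act (T.ten f f') (kunneth X X' (x ⊗ₜ x')) = kunneth Y Y' (act f x ⊗ₜ act f' x')
  /-- the Lefschetz trace formula -/
  trace_formula : ∀ (X : V) (f : T.CH (X ⊗ X)), f ∈ T.cyc (X ⊗ X) (T.dim X) →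
    (T.deg (T.pull (lift (𝟙 X) (𝟙 X)) f) : ℂ) = LinearMap.trace ℂ (H X) (sgn X ∘ₗ act f)
  /-- the eigenvalues of Frobenius on `H^i(X)` have absolute value `q ^ (i / 2)` -/
  weight : ∀ (X : V) (i : ℤ) (x : H X) (z : ℂ), x ∈ gr X i → x ≠ 0 →
    act (T.graph (T.Fr X)) x = z • x → ‖z‖ ^ 2 = (T.q : ℝ) ^ i

namespace Cohomology

variable {T : ChowTheory.{v, u, w} V} (K : Cohomology.{v, u, w, x} T)

/-- The multiplicity of `z` as an eigenvalue of Frobenius on the cohomology `p_* H(X)` of the motive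
`(X, p, m)`: the dimension of the image under `p_*` of the generalized eigenspace for `z`. -/
noncomputable def mult (M : Mot T) (z : ℂ) : ℕ :=
  Module.finrank ℂ ((Module.End.maxGenEigenspace (K.act (T.graph (T.Fr M.X))) z).map (K.act M.p))

/-- Tate's formula for the endomorphisms of the Chow motive `M`: the dimension of the space of the
endomorphisms modulo the numerically trivial ones is the sum of the squares of the multiplicities
of the eigenvalues of Frobenius on the cohomology of `M`. -/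
def TateFormula (M : Mot T) : Prop :=
  T.numRank (Set.range (Mot.Hom.val : Mot.Hom M M → T.CH (M.X ⊗ M.X))) =
    (∑ᶠ z : ℂ, K.mult M z ^ 2 : ℕ)

end Cohomology

end CHS
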