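import Mathlib

/-!
# Chow groups over a finite field and correspondences: definitions (MP_6c4da4_ag)

`ChowTheory V` lists the facts on Chow groups with rational coefficients which are used: `V` is the
category of the nonempty smooth projective varieties of pure dimension over a finite field, with
the product over the field as cartesian product.  All fields are in Fulton, Intersection Theory,
Chapters 1 - 8.
-/

set_option autoImplicit false

open CategoryTheory MonoidalCategory CartesianMonoidalCategory Limits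

universe v u w

namespace CHS

/-- `g : Z ⟶ Y` is the projection of a product to a factor (up to an isomorphism). -/
def IsProjection {V : Type u} [Category.{v} V] [CartesianMonoidalCategory V] {Z Y : V}
    (g : Z ⟶ Y) : Prop :=
  ∃ (B : V) (e : Z ≅ Y ⊗ B), g = e.hom ≫ fst Y B

/-- Chow groups with rational coefficients of smooth projective varieties over a finite field.
`V` is the category of the nonempty smooth projective varieties of pure dimension, `X ⊗ Y` is the
product, `𝟙_ V` the point. -/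
structure ChowTheory (V : Type u) [Category.{v} V] [CartesianMonoidalCategory V] where
  /-- the dimension -/
  dim : V → ℤ
  dim_unit : dim (𝟙_ V) = 0
  dim_tensor : ∀ X Y : V, dim (X ⊗ Y) = dim X + dim Y
  /-- the Chow ring `CH^*(X)_ℚ` -/
  CH : V → CommAlgCat.{w} ℚ
  /-- `gr X i = CH^i(X)_ℚ`, the cycles of codimension `i` -/
  gr : ∀ X : V, ℤ → Submodule ℚ (CH X)
  graded : ∀ X, Nonempty (GradedAlgebra (gr X))
  /-- the pullback `f^*` -/
  pull : ∀ {X Y : V}, (X ⟶ Y) → CH Y → CH X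
  pull_add : ∀ {X Y : V} (f : X ⟶ Y) (a b : CH Y), pull f (a + b) = pull f a + pull f b
  pull_mul : ∀ {X Y : V} (f : X ⟶ Y) (a b : CH Y), pull f (a * b) = pull f a * pull f b
  pull_rat : ∀ {X Y : V} (f : X ⟶ Y) (r : ℚ), pull f (algebraMap ℚ (CH Y) r) = algebraMap ℚ (CH X) r
  pull_id : ∀ (X : V) (a : CH X), pull (𝟙 X) a = a
  pull_comp : ∀ {X Y Z : V} (f : X ⟶ Y) (g : Y ⟶ Z) (a : CH Z), pull (f ≫ g) a = pull f (pull g a)
  pull_mem : ∀ {X Y : V} (f : X ⟶ Y) (i : ℤ) (a : CH Y), a ∈ gr Y i → pull f a ∈ gr X i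
  /-- the pushforward `f_*` -/
  push : ∀ {X Y : V}, (X ⟶ Y) → CH X → CH Y
  push_add : ∀ {X Y : V} (f : X ⟶ Y) (a b : CH X), push f (a + b) = push f a + push f b
  push_smul : ∀ {X Y : V} (f : X ⟶ Y) (r : ℚ) (a : CH X), push f (r • a) = r • push f a
  push_id : ∀ (X : V) (a : CH X), push (𝟙 X) a = a
  push_comp : ∀ {X Y Z : V} (f : X ⟶ Y) (g : Y ⟶ Z) (a : CH X), push (f ≫ g) a = push g (push f a)
  push_mem : ∀ {X Y : V} (f : X ⟶ Y) (i : ℤ) (a : CH X), a ∈ gr X i →
    push f a ∈ gr Y (i + dim Y - dim X)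
  /-- the projection formula `f_* (f^* b · a) = b · f_* a` -/
  projection : ∀ {X Y : V} (f : X ⟶ Y) (a : CH X) (b : CH Y), push f (pull f b * a) = b * push f a
  /-- base change: `g^* f_* = f'_* g'^*` for cartesian squares with `g` a projection -/
  base_change : ∀ {P X Y Z : V} (g' : P ⟶ X) (f' : P ⟶ Z) (f : X ⟶ Y) (g : Z ⟶ Y),
    IsPullback g' f' f g → IsProjection g → ∀ a : CH X, pull g (push f a) = push f' (pull g' a)
  /-- the degree: the pushforward to the point; the Chow ring of the point is `ℚ` -/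
  deg : ∀ {X : V}, CH X → ℚ
  push_unit : ∀ {X : V} (a : CH X), push (toUnit X) a = algebraMap ℚ (CH (𝟙_ V)) (deg a)
  point : (1 : CH (𝟙_ V)) ≠ 0
  /-- the disjoint union `Z` of two varieties `X`, `Y` of the same dimension:
  `CH^k(W × Z) = CH^k(W × X) × CH^k(W × Y)` -/
  union : ∀ X Y : V, dim X = dim Y → ∃ (Z : V) (i : X ⟶ Z) (j : Y ⟶ Z), dim Z = dim X ∧
    ∀ W : V, (∀ a : CH (W ⊗ Z), pull (W ◁ i) a = 0 → pull (W ◁ j) a = 0 → a = 0) ∧
      ∀ (k : ℤ) (b : CH (W ⊗ X)) (c : CH (W ⊗ Y)), b ∈ gr _ k → c ∈ gr _ k →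
        ∃ a ∈ gr (W ⊗ Z) k, pull (W ◁ i) a = b ∧ pull (W ◁ j) a = c
  /-- the projective line `E` and the class `c` of a rational point -/
  line : ∃ (E : V) (c : CH E), dim E = 1 ∧ c ∈ gr E 1 ∧ push (toUnit E) c = 1
  /-- the number of elements of the ground field -/
  q : ℕ
  one_lt : 1 < q
  /-- the Frobenius endomorphism of `X`: the identity on points, the power `q` on functions -/
  Fr : ∀ X : V, X ⟶ X
  natural : ∀ {X Y : V} (f : X ⟶ Y), f ≫ Fr Y = Fr X ≫ f
  pull_Fr : ∀ (X : V) (i : ℤ) (a : CH X), a ∈ gr X i → pull (Fr X) a = (q : ℚ) ^ i • a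
  push_Fr : ∀ X : V, push (Fr X) 1 = (q : ℚ) ^ dim X • (1 : CH X)

variable {V : Type u} [Category.{v} V] [CartesianMonoidalCategory V]

namespace ChowTheory

variable (T : ChowTheory.{v, u, w} V)

/-- `CH^i(X)_ℚ` as a set. -/
def cyc (X : V) (i : ℤ) : Set (T.CH X) := T.gr X i

/-- The composition `g ∘ f` of the correspondences `f` from `X` to `Y` and `g` from `Y` to `Z`. -/
def cp {X Y Z : V} (f : T.CH (X ⊗ Y)) (g : T.CH (Y ⊗ Z)) : T.CH (X ⊗ Z) :=
  T.push (lift (fst (X ⊗ Y) Z ≫ fst X Y) (snd (X ⊗ Y) Z))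
    (T.pull (fst (X ⊗ Y) Z) f * T.pull (lift (fst (X ⊗ Y) Z ≫ snd X Y) (snd (X ⊗ Y) Z)) g)

/-- The class of the transpose of the graph of `φ : Y ⟶ X`, a correspondence from `X` to `Y`. -/
def graph {X Y : V} (φ : Y ⟶ X) : T.CH (X ⊗ Y) := T.push (lift φ (𝟙 Y)) 1

/-- The exterior product of correspondences. -/
def ten {X Y X' Y' : V} (f : T.CH (X ⊗ Y)) (f' : T.CH (X' ⊗ Y')) : T.CH ((X ⊗ X') ⊗ (Y ⊗ Y')) :=
  T.pull (fst X X' ⊗ₘ fst Y Y') f * T.pull (snd X X' ⊗ₘ snd Y Y') f'

/-- The transpose of a correspondence. -/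
def tr {X Y : V} (f : T.CH (X ⊗ Y)) : T.CH (Y ⊗ X) := T.pull (lift (snd Y X) (fst Y X)) f

/-- The cycle `a` is numerically trivial: `deg (a · b) = 0` for all cycles `b`. -/
def NumTrivial {X : V} (a : T.CH X) : Prop := ∀ b : T.CH X, T.deg (a * b) = 0

/-- The dimension of the space spanned by the set `s` of cycles modulo the numerically trivial
cycles: the dimension of the space of functions `b ↦ deg (a · b)` spanned by the `a` in `s`. -/
noncomputable def numRank {X : V} (s : Set (T.CH X)) : Cardinal.{w} :=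
  Module.rank ℚ (Submodule.span ℚ ((fun a b : T.CH X => T.deg (a * b)) '' s))

end ChowTheory

/-- Chow motives with rational coefficients: triples `(X, p, m)` with `X` smooth projective, `p` an
idempotent correspondence of degree `0` from `X` to `X` and `m` an integer. -/
structure Mot (T : ChowTheory.{v, u, w} V) where
  X : V
  p : T.CH (X ⊗ X)
  m : ℤ
  deg : p ∈ T.cyc (X ⊗ X) (T.dim X)
  idem : T.cp p p = p

/-- `f` is a morphism `(X, p, m) ⟶ (Y, q, n)`: a correspondence of degree `n - m`, that is in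
`CH^(dim X + n - m) (X × Y)`, with `f ∘ p = f = q ∘ f`. -/
def Mot.IsHom {T : ChowTheory.{v, u, w} V} (M N : Mot T) (f : T.CH (M.X ⊗ N.X)) : Prop :=
  f ∈ T.cyc (M.X ⊗ N.X) (T.dim M.X + N.m - M.m) ∧ T.cp M.p f = f ∧ T.cp f N.p = f

/-- The morphisms `M ⟶ N`. -/
@[ext]
structure Mot.Hom {T : ChowTheory.{v, u, w} V} (M N : Mot T) where
  val : T.CH (M.X ⊗ N.X)
  prop : M.IsHom N val

end CHS
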