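import Pool.Agent.CHS.Cat

/-!
# The equivalence with the category of Chow motives of the library `CHM` (MP_6c4da4_ag)
-/

set_option autoImplicit false

open CategoryTheory MonoidalCategory CartesianMonoidalCategory Limits

universe v u w

namespace CHS

variable {V : Type u} [Category.{v} V] [CartesianMonoidalCategory V]

namespace Mot

variable {T : ChowTheory.{v, u, w} V}

/-- The motive in the sense of the library `CHM`. -/
def old (M : Mot T) : CHM.Mot T.toOld := ⟨M.X, M.p, M.m, M.deg, M.idem⟩

/-- The motive defined by a motive in the sense of the library `CHM`. -/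
def new (M : CHM.Mot T.toOld) : Mot T := ⟨M.X, M.p, M.m, M.deg, M.idem⟩

theorem old_new (M : CHM.Mot T.toOld) : (new M).old = M := rfl

theorem new_old (M : Mot T) : new M.old = M := rfl

theorem isHom_iff {M N : Mot T} (f : T.CH (M.X ⊗ N.X)) :
    M.IsHom N f ↔ f ∈ CHM.Mot.hom M.old N.old := by
  constructor
  · intro h
    refine ⟨h.1, ?_⟩
    change T.cp (T.cp M.p f) N.p = f
    rw [h.2.1, h.2.2]
  · intro h
    exact ⟨h.1, CHM.Mot.p_cp h, CHM.Mot.cp_p h⟩

/-- The morphism in the sense of the library `CHM`. -/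
def oldHom {M N : Mot T} (f : M ⟶ N) : M.old ⟶ N.old := ⟨Hom.val f, (isHom_iff _).1 (Hom.prop f)⟩

/-- The morphism defined by a morphism in the sense of the library `CHM`. -/
def newHom {M N : Mot T} (f : M.old ⟶ N.old) : M ⟶ N := Hom.mk f.1 ((isHom_iff _).2 f.2)

theorem oldHom_newHom {M N : Mot T} (f : M.old ⟶ N.old) : oldHom (newHom f) = f := rfl

theorem newHom_oldHom {M N : Mot T} (f : M ⟶ N) : newHom (oldHom f) = f := rfl

end Mot

variable (T : ChowTheory.{v, u, w} V)

/-- The equivalence of categories. -/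
def oldFunctor : Mot T ⥤ CHM.Mot T.toOld where
  obj M := M.old
  map f := Mot.oldHom f
  map_id _ := rfl
  map_comp _ _ := rfl

instance : (oldFunctor T).Full := ⟨fun f => ⟨Mot.newHom f, rfl⟩⟩

instance : (oldFunctor T).Faithful :=
  ⟨fun {_ _ f g} h => by
    have h1 : Mot.newHom (Mot.oldHom f) = Mot.newHom (Mot.oldHom g) := congrArg Mot.newHom h
    exact h1⟩

instance : (oldFunctor T).EssSurj := ⟨fun M => ⟨Mot.new M, ⟨Iso.refl M⟩⟩⟩

instance : (oldFunctor T).Additive := ⟨fun {_ _ _ _} => rfl⟩

instance : (oldFunctor T).IsEquivalence where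

theorem hom_eq_zero_iff {M N : Mot T} (f : M ⟶ N) : f = 0 ↔ Mot.Hom.val f = 0 := by
  constructor
  · intro h
    rw [h]
    rfl
  · intro h
    exact Mot.Hom.ext h

end CHS
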