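import Pool.Agent.CHS.Coh

/-!
# Correspondences acting on cycles and on cohomology: definitions (MP_6c4da4_ag)
-/

set_option autoImplicit false

open CategoryTheory MonoidalCategory CartesianMonoidalCategory

universe v u w x

namespace CHS

variable {V : Type u} [Category.{v} V] [CartesianMonoidalCategory V]

/-- The action of a correspondence from `X` to `Y` on cycles: `a ↦ pr₂_* (pr₁^* a · f)`. -/
def ChowTheory.corr (T : ChowTheory.{v, u, w} V) {X Y : V} (f : T.CH (X ⊗ Y)) (a : T.CH X) :
    T.CH Y :=
  T.push (snd X Y) (T.pull (fst X Y) a * f)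

namespace Cohomology

variable {T : ChowTheory.{v, u, w} V} (K : Cohomology.{v, u, w, x} T)

/-- The action of a correspondence from `X` to `Y` on cohomology. -/
def corr {X Y : V} (f : T.CH (X ⊗ Y)) (x : K.H X) : K.H Y := K.act f x

/-- `H^i(X)` as a set. -/
def coh (X : V) (i : ℤ) : Set (K.H X) := K.gr X i

/-- The cohomology `p_* H(X)` of the motive `(X, p, m)`. -/
def cohMot (M : Mot T) : Set (K.H M.X) := Set.range (K.corr M.p)

/-- `l ∈ CH^1(X)` satisfies the hard Lefschetz theorem: for `j + k = dim X`, the multiplication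
with `l ^ k` (the correspondence `δ_* (l ^ k)`, `δ` the diagonal) maps `H^j(X)` bijectively onto
`H^(j+2k)(X)`. -/
def HardLefschetz (X : V) (l : T.CH X) : Prop :=
  ∀ (j : ℤ) (k : ℕ), j + k = T.dim X →
    Set.BijOn (K.corr (T.push (lift (𝟙 X) (𝟙 X)) (l ^ k))) (K.coh X j) (K.coh X (j + 2 * k))

end Cohomology

end CHS
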