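import Pool.Agent.CHM.Detect
import Pool.Agent.CHS.Ab
import Pool.Agent.CHS.Equiv
import Pool.Agent.CHS.Lef

/-!
# Cohomology detects Chow groups, in the abelian case (MP_6c4da4_ag)
-/

set_option autoImplicit false

open CategoryTheory MonoidalCategory CartesianMonoidalCategory Limits

universe v u w x

namespace CHS

variable {V : Type u} [Category.{v} V] [CartesianMonoidalCategory V]

namespace ChowTheory

variable (T : ChowTheory.{v, u, w} V)

theorem old_corr {X Y : V} (f : T.CH (X ⊗ Y)) (a : T.CH X) :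
    T.toOld.corr (X := X) (Y := Y) f a = T.corr f a := rfl

theorem corr_sub {X Y : V} (f : T.CH (X ⊗ Y)) (a b : T.CH X) :
    T.corr f (a - b) = T.corr f a - T.corr f b := map_sub (T.toOld.corr (X := X) (Y := Y) f) a b

theorem corr_mem {X Y : V} (i r : ℤ) {f : T.CH (X ⊗ Y)} (hf : f ∈ T.cyc (X ⊗ Y) (T.dim X + r))
    {a : T.CH X} (ha : a ∈ T.cyc X i) : T.corr f a ∈ T.cyc Y (i + r) := by
  have h1 := T.toOld.mul_mem (T.toOld.pull_mem (fst X Y) _ _ ha) hf
  have h2 := T.toOld.push_mem (snd X Y) _ _ h1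
  have e : i + (T.dim X + r) + T.dim Y - T.dim (X ⊗ Y) = i + r := by
    rw [T.dim_tensor]
    ring
  exact T.toOld.gr_congr e h2

theorem pow_mem {X : V} {l : T.CH X} (hl : l ∈ T.cyc X 1) (k : ℕ) : l ^ k ∈ T.cyc X k := by
  have h := SetLike.pow_mem_graded (A := T.toOld.gr X) k hl
  exact T.toOld.gr_congr (by simp) h

theorem mul_mem {X : V} {a b : T.CH X} {i j : ℤ} (ha : a ∈ T.cyc X i) (hb : b ∈ T.cyc X j) :
    a * b ∈ T.cyc X (i + j) := T.toOld.mul_mem ha hb

end ChowTheory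

namespace Cohomology

variable {T : ChowTheory.{v, u, w} V} (K : Cohomology.{v, u, w, x} T)

theorem old_abelian (hA : IsAbelian (Mot T)) : MotP.IsAbelian (CHM.Mot T.toOld) :=
  ((isAbelian_iff_of_equivalence (oldFunctor T)).1 hA).toMotP

theorem act_p {M : Mot T} {y : K.H M.X} (hy : y ∈ K.cohMot M) : K.act M.p y = y := by
  obtain ⟨z, rfl⟩ := hy
  change K.act M.p (K.act M.p z) = K.act M.p z
  rw [← K.act_cp, M.idem]

theorem mem_cohMot {M : Mot T} {y : K.H M.X} (hy : K.act M.p y = y) : y ∈ K.cohMot M := ⟨y, hy⟩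

theorem split_mono_old {M N : Mot T} (f : M ⟶ N) (h : Set.InjOn (K.corr f.val) (K.cohMot M)) :
    IsSplitMono (K.toOld.functor.map (Mot.oldHom f)) := by
  refine K.toOld.splitMono_of_injective (Mot.oldHom f) fun y hy => Subtype.ext ?_
  refine h (K.mem_cohMot y.2) ⟨0, map_zero _⟩ ?_
  exact (congrArg Subtype.val hy).trans (map_zero (K.act f.val)).symm

theorem split_epi_old {M N : Mot T} (f : M ⟶ N)
    (h : Set.SurjOn (K.corr f.val) (K.cohMot M) (K.cohMot N)) :
    IsSplitEpi (K.toOld.functor.map (Mot.oldHom f)) := by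
  refine K.toOld.splitEpi_of_surjective (Mot.oldHom f) fun z => ?_
  obtain ⟨y, hy, hyz⟩ := h (K.mem_cohMot z.2)
  exact ⟨⟨y, K.act_p hy⟩, Subtype.ext hyz⟩

theorem detect_mono (hA : IsAbelian (Mot T)) {M N : Mot T} (f : M ⟶ N)
    (h : Set.InjOn (K.corr f.val) (K.cohMot M)) : Mono f := by
  have h1 : Mono ((oldFunctor T).map f) :=
    K.toOld.mono_of (old_abelian hA) (Mot.oldHom f) (K.split_mono_old f h)
  exact (oldFunctor T).mono_of_mono_map h1

theorem detect_epi (hA : IsAbelian (Mot T)) {M N : Mot T} (f : M ⟶ N)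
    (h : Set.SurjOn (K.corr f.val) (K.cohMot M) (K.cohMot N)) : Epi f := by
  have h1 : Epi ((oldFunctor T).map f) :=
    K.toOld.epi_of (old_abelian hA) (Mot.oldHom f) (K.split_epi_old f h)
  exact (oldFunctor T).epi_of_epi_map h1

theorem detect_iso (hA : IsAbelian (Mot T)) {M N : Mot T} (f : M ⟶ N)
    (h : Set.BijOn (K.corr f.val) (K.cohMot M) (K.cohMot N)) : IsIso f := by
  have h1 : IsIso ((oldFunctor T).map f) :=
    K.toOld.iso_of (old_abelian hA) (Mot.oldHom f) (K.split_mono_old f h.2.1)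
      (K.split_epi_old f h.2.2)
  exact isIso_of_reflects_iso f (oldFunctor T)

/-- (2): from cohomology to Chow groups, for correspondences. -/
theorem detect_corr (hA : IsAbelian (Mot T)) {X Y : V} (i r : ℤ)
    (f : T.CH (X ⊗ Y)) (hf : f ∈ T.cyc (X ⊗ Y) (T.dim X + r))
    (hinj : Set.InjOn (K.corr f) (K.coh X (2 * i))) :
    Set.InjOn (T.corr f) (T.cyc X i) ∧
      (Set.SurjOn (K.corr f) (K.coh X (2 * i)) (K.coh Y (2 * (i + r))) →
        Set.SurjOn (T.corr f) (T.cyc X i) (T.cyc Y (i + r))) := by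
  have h := K.toOld.chow_main (old_abelian hA) i r f hf fun x hx hx0 =>
    hinj hx (K.gr X (2 * i)).zero_mem (hx0.trans (map_zero (K.act f)).symm)
  refine ⟨?_, ?_⟩
  · intro a ha b hb hab
    refine sub_eq_zero.1 (h.1 (a - b) ((T.gr X i).sub_mem ha hb) ?_)
    change T.corr f (a - b) = 0
    rw [T.corr_sub, hab, sub_self]
  · intro hs b hb
    obtain ⟨a, ha, hab⟩ := h.2 (fun y hy => by
      obtain ⟨x, -, hx⟩ := hs hy
      exact ⟨x, hx⟩) b hb
    exact ⟨a, ha, hab⟩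

/-- (3): hard Lefschetz for Chow groups. -/
theorem detect_lefschetz (hA : IsAbelian (Mot T)) {X : V} (l : T.CH X)
    (hl : l ∈ T.cyc X 1) (hL : K.HardLefschetz X l) (i : ℤ) (k : ℕ) (hik : 2 * i + k = T.dim X) :
    Set.BijOn (fun a : T.CH X => a * l ^ k) (T.cyc X i) (T.cyc X (i + k)) := by
  have h := K.toOld.chow_lefschetz (old_abelian hA) l hl (fun j n hjn => by
    obtain ⟨h1, h2, h3⟩ := hL j n hjn
    refine ⟨fun x hx hx0 => ?_, fun y hy => h3 hy⟩
    exact h2 hx (K.gr X j).zero_mem (hx0.trans (map_zero (K.act _)).symm)) i k hik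
  refine ⟨fun a ha => T.mul_mem ha (T.pow_mem hl k), ?_, fun b hb => h.2 b hb⟩
  intro a ha b hb hab
  refine sub_eq_zero.1 (h.1 (a - b) ((T.gr X i).sub_mem ha hb) ?_)
  change (a - b) * l ^ k = 0
  rw [sub_mul, sub_eq_zero]
  exact hab

/-- **Cohomology detects Chow motives and Chow groups.** -/
theorem detect (hA : IsAbelian (Mot T)) :
    (∀ (M N : Mot T) (f : M ⟶ N),
      (Set.InjOn (K.corr f.val) (K.cohMot M) → Mono f) ∧
      (Set.SurjOn (K.corr f.val) (K.cohMot M) (K.cohMot N) → Epi f) ∧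
      (Set.BijOn (K.corr f.val) (K.cohMot M) (K.cohMot N) → IsIso f)) ∧
    (∀ (X Y : V) (i r : ℤ), ∀ f ∈ T.cyc (X ⊗ Y) (T.dim X + r),
      (Set.InjOn (K.corr f) (K.coh X (2 * i)) → Set.InjOn (T.corr f) (T.cyc X i)) ∧
      (Set.BijOn (K.corr f) (K.coh X (2 * i)) (K.coh Y (2 * (i + r))) →
        Set.BijOn (T.corr f) (T.cyc X i) (T.cyc Y (i + r)))) ∧
    (∀ (X : V), ∀ l ∈ T.cyc X 1, K.HardLefschetz X l →
      ∀ (i : ℤ) (k : ℕ), 2 * i + k = T.dim X →
        Set.BijOn (fun a : T.CH X => a * l ^ k) (T.cyc X i) (T.cyc X (i + k)) ∧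
        ((∀ a ∈ T.cyc X i, T.NumTrivial (a * l ^ k) → a = 0) →
          ∀ b ∈ T.cyc X (i + k), T.NumTrivial b → b = 0)) := by
  refine ⟨fun M N f => ⟨K.detect_mono hA f, K.detect_epi hA f, K.detect_iso hA f⟩, ?_, ?_⟩
  · intro X Y i r f hf
    refine ⟨fun h => (K.detect_corr hA i r f hf h).1, fun h => ⟨fun a ha => T.corr_mem i r hf ha,
      (K.detect_corr hA i r f hf h.2.1).1, (K.detect_corr hA i r f hf h.2.1).2 h.2.2⟩⟩
  · intro X l hl hL i k hik
    have h := K.detect_lefschetz hA l hl hL i k hik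
    refine ⟨h, fun hI b hb hb0 => ?_⟩
    obtain ⟨a, ha, rfl⟩ := h.2.2 hb
    have h0 : a = 0 := hI a ha hb0
    change a * l ^ k = 0
    rw [h0, zero_mul]

end Cohomology

end CHS
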