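import Pool.Agent.CHS.LemOps

/-!
# The motive of a variety, tensor products and duals (MP_6c4da4_ag)
-/

set_option autoImplicit false

open CategoryTheory MonoidalCategory CartesianMonoidalCategory Limits

universe v u w

namespace CHS.Mot

variable {V : Type u} [Category.{v} V] [CartesianMonoidalCategory V]

/-- The motive `h(X) = (X, Δ, 0)` of `X`. -/
def h (T : ChowTheory.{v, u, w} V) (X : V) : Mot T :=
  ⟨X, T.graph (𝟙 X), 0, graph_mem T X, graph_cp T X⟩

variable {T : ChowTheory.{v, u, w} V}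

/-- The tensor product `(X, p, m) ⊗ (Y, q, n) = (X × Y, p × q, m + n)`. -/
def tensor (M N : Mot T) : Mot T :=
  ⟨M.X ⊗ N.X, T.ten M.p N.p, M.m + N.m, tensor_mem M N, tensor_cp M N⟩

/-- The dual `(X, p, m)' = (X, transpose of p, dim X - m)`. -/
def dual (M : Mot T) : Mot T := ⟨M.X, T.tr M.p, T.dim M.X - M.m, dual_mem M, dual_cp M⟩

end CHS.Mot
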