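import Pool.Agent.CHS.Cat
import Pool.Agent.CHS.Ops

/-!
# The generated motives (MP_6c4da4_ag)
-/

set_option autoImplicit false

open CategoryTheory MonoidalCategory CartesianMonoidalCategory Limits

universe v u w x

namespace CHS

variable {V : Type u} [Category.{v} V] [CartesianMonoidalCategory V]

/-- The Chow motives generated, under tensor products, duals, direct sums and direct summands, by
those with Tate's formula and by those with a simple spectrum (all eigenvalues of Frobenius on the
cohomology of `M` have multiplicity one). -/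
inductive Cohomology.Gen {T : ChowTheory.{v, u, w} V} (K : Cohomology.{v, u, w, x} T) : Mot T → Prop
  | tate (M : Mot T) : K.TateFormula M → K.Gen M
  | simple (M : Mot T) : (∀ z : ℂ, K.mult M z ≤ 1) → K.Gen M
  | tensor (M N : Mot T) : K.Gen M → K.Gen N → K.Gen (M.tensor N)
  | dual (M : Mot T) : K.Gen M → K.Gen M.dual
  | sum (M N L : Mot T) (i : M ⟶ L) (p : L ⟶ M) (j : N ⟶ L) (q : L ⟶ N) :
      i ≫ p = 𝟙 M → j ≫ q = 𝟙 N → p ≫ i + q ≫ j = 𝟙 L → K.Gen M → K.Gen N → K.Gen L
  | summand (M N : Mot T) (i : N ⟶ M) (p : M ⟶ N) : i ≫ p = 𝟙 N → K.Gen M → K.Gen N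

/-- The full subcategory of the generated motives. -/
abbrev Cohomology.GenCat {T : ChowTheory.{v, u, w} V} (K : Cohomology.{v, u, w, x} T) : Type _ :=
  ObjectProperty.FullSubcategory (fun M : Mot T => K.Gen M)

end CHS
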