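import Pool.Agent.CHS.RatNum
import Pool.Agent.CHS.Betti

/-!
# The growth of Chow groups (MP_6c4da4_ag)
-/

set_option autoImplicit false

open CategoryTheory MonoidalCategory CartesianMonoidalCategory Limits

universe v u w x

namespace CHS

variable {V : Type u} [Category.{v} V] [CartesianMonoidalCategory V]

theorem pow_old (X : V) (r : ℕ) : CHM.pow X r = pow X r := by
  induction r with
  | zero => rfl
  | succ r ih =>
    unfold pow
    rw [Function.iterate_succ_apply']
    change CHM.pow X r ⊗ X = pow X r ⊗ X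
    rw [ih]

namespace ChowTheory

variable (T : ChowTheory.{v, u, w} V)

theorem rank_cyc (X : V) (i : ℤ) : T.rank (T.cyc X i) = Module.rank ℚ (T.toOld.gr X i) := by
  unfold rank cyc
  rw [Submodule.span_eq]
  rfl

theorem numTrivial_num {X : V} {i : ℤ} (a : T.toOld.gr X i) :
    a ∈ T.toOld.num X i ↔ T.NumTrivial a.1 := by
  rw [T.numTrivial_iff (i := i) a.2]
  constructor
  · intro h b hb
    rw [← T.old_deg]
    exact h b hb
  · intro h b hb
    exact (T.old_deg _).trans (h b hb)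

theorem rank_num (X : V) (i : ℤ) : T.rank {b | b ∈ T.cyc X i ∧ T.NumTrivial b} =
    Module.rank ℚ (T.toOld.num X i) := by
  have h1 : {b | b ∈ T.cyc X i ∧ T.NumTrivial b} =
      (((T.toOld.num X i).map (T.toOld.gr X i).subtype : Submodule ℚ (T.CH X)) : Set (T.CH X)) := by
    ext b
    constructor
    · rintro ⟨hb, hn⟩
      exact ⟨⟨b, hb⟩, (T.numTrivial_num _).2 hn, rfl⟩
    · rintro ⟨a, ha, rfl⟩
      exact ⟨a.2, (T.numTrivial_num a).1 ha⟩
  unfold rank
  rw [h1]
  have h2 : Submodule.span ℚ (((T.toOld.num X i).map (T.toOld.gr X i).subtype :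
      Submodule ℚ (T.CH X)) : Set (T.CH X)) = (T.toOld.num X i).map (T.toOld.gr X i).subtype :=
    Submodule.span_eq _
  rw [h2]
  exact (Submodule.equivMapOfInjective (T.toOld.gr X i).subtype
    (T.toOld.gr X i).injective_subtype _).rank_eq.symm

theorem numRank_cyc (X : V) (i : ℤ) :
    T.numRank (T.cyc X i) = Module.rank ℚ (T.toOld.gr X i ⧸ T.toOld.num X i) := by
  have h1 : T.cyc X i = Set.range (T.toOld.gr X i).subtype := Subtype.range_coe.symm
  rw [h1]
  exact T.numRank_eq (T.toOld.gr X i).subtype (T.toOld.num X i) fun a => T.numTrivial_num a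

theorem cpow_comm {X : V} (f : T.CH (X ⊗ X)) (n : ℕ) :
    T.cp f (T.toOld.cpow f n) = T.cp (T.toOld.cpow f n) f := by
  induction n with
  | zero =>
    have h1 := T.toOld.cp_diag f
    have h2 := T.toOld.diag_cp f
    exact h1.trans h2.symm
  | succ n ih =>
    change T.cp f (T.cp (T.toOld.cpow f n) f) = T.cp (T.cp (T.toOld.cpow f n) f) f
    rw [← T.cp_assoc, ih]

theorem iterate_cp {X : V} (f : T.CH (X ⊗ X)) (n : ℕ) :
    (T.cp f)^[n] f = T.toOld.cpow f (n + 1) := by
  induction n with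
  | zero => exact (T.toOld.diag_cp f).symm
  | succ n ih =>
    rw [Function.iterate_succ_apply', ih, T.cpow_comm]
    rfl

end ChowTheory

namespace Cohomology

variable {T : ChowTheory.{v, u, w} V} (K : Cohomology.{v, u, w, x} T)

theorem even_old (X : V) : K.even X = K.toOld.evenBetti X := by
  have h : Module.End.eigenspace (K.sgn X) 1 =
      (K.toOld.evenPart (CHM.Mot.h T.toOld X 0) : Submodule ℂ (K.H X)) := by
    ext y
    rw [Module.End.mem_eigenspace_iff, one_smul]
    exact ⟨fun h => ⟨K.act_id X y, h⟩, fun h => h.2⟩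
  unfold even
  rw [h]
  rfl

theorem odd_old (X : V) : K.odd X = K.toOld.oddBetti X := by
  have h : Module.End.eigenspace (K.sgn X) (-1) =
      (K.toOld.oddPart (CHM.Mot.h T.toOld X 0) : Submodule ℂ (K.H X)) := by
    ext y
    rw [Module.End.mem_eigenspace_iff, neg_one_smul]
    exact ⟨fun h => ⟨K.act_id X y, h⟩, fun h => h.2⟩
  unfold odd
  rw [h]
  rfl

theorem small_old (X : V) (r : ℕ) : K.Small X r ↔ K.toOld.Small X r := by
  unfold Small CHM.Cohomology.Small
  rw [K.even_old, K.odd_old, ← pow_old, T.rank_cyc]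
  rfl

theorem mult_h (X : V) (i : ℤ) : K.mult (Mot.h T X) ((T.q : ℂ) ^ i) = K.toOld.mult X i := by
  rw [K.toOld.mult_eq]
  have h : Submodule.map (K.act (T.graph (𝟙 X)))
      (Module.End.maxGenEigenspace (K.act (T.graph (T.Fr X))) ((T.q : ℂ) ^ i)) =
      Module.End.maxGenEigenspace (K.act (T.graph (T.Fr X))) ((T.q : ℂ) ^ i) := by
    have h1 : K.act (T.graph (𝟙 X)) = LinearMap.id := LinearMap.ext (K.act_id X)
    rw [h1, Submodule.map_id]
  exact congrArg (fun S : Submodule ℂ (K.H X) => Module.finrank ℂ S) h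

/-- The ranks of Chow groups and the abelianness of the category of Chow motives. -/
theorem growth :
    ((∀ (X : V) (i : ℤ), T.numRank (T.cyc X i) = (K.mult (Mot.h T X) ((T.q : ℂ) ^ i) : ℕ)) →
      [IsAbelian (Mot T),
        ∃ c : ℕ, ∀ (X : V) (i : ℤ), T.rank (T.cyc X i) ≤ (c * Module.finrank ℂ (K.H X) : ℕ),
        ∀ X : V, ∃ r, 0 < r ∧ K.Small X r].TFAE) ∧
    (IsAbelian (Mot T) →
      (∀ (X : V) (i : ℤ), T.rank (T.cyc X i) +
        T.rank {b | b ∈ T.cyc X (T.dim X - i) ∧ T.NumTrivial b} ≤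
          (K.mult (Mot.h T X) ((T.q : ℂ) ^ i) : ℕ)) ∧
      ∀ X : V, ∃ r, 0 < r ∧ K.Small X r) ∧
    (∀ (X : V) (r : ℕ), 0 < r → K.Small X r → ∀ f ∈ T.cyc (X ⊗ X) (T.dim X), T.NumTrivial f →
      ∃ n, (T.cp f)^[n] f = 0) := by
  obtain ⟨h1, h2, h3⟩ := K.toOld.growth
  refine ⟨?_, ?_, ?_⟩
  · intro hT
    have h4 := h3 fun X i => by
      have h5 := hT X i
      rw [T.numRank_cyc, K.mult_h] at h5
      exact h5
    rw [isAbelian_mot]
    have e2 : (∃ c : ℕ, ∀ (X : V) (i : ℤ), T.rank (T.cyc X i) ≤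
        ((c * Module.finrank ℂ (K.H X) : ℕ) : Cardinal.{w})) ↔
        (∃ c : ℕ, ∀ (X : V) (i : ℤ), Module.rank ℚ (T.toOld.gr X i) ≤
          ((c * Module.finrank ℂ (K.toOld.H X) : ℕ) : Cardinal.{w})) := by
      refine exists_congr fun c => forall_congr' fun X => forall_congr' fun i => ?_
      rw [T.rank_cyc]
      rfl
    have e3 : (∀ X : V, ∃ r, 0 < r ∧ K.Small X r) ↔ (∀ X : V, ∃ r, 0 < r ∧ K.toOld.Small X r) :=
      forall_congr' fun X => exists_congr fun r => and_congr_right fun _ => K.small_old X r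
    rw [e2, e3]
    exact h4
  · intro hA
    refine ⟨fun X i => ?_, fun X => ?_⟩
    swap
    · obtain ⟨-, r, hr, hs⟩ := h1 (isAbelian_mot.1 hA) X
      exact ⟨r, hr, (K.small_old X r).2 hs⟩
    obtain ⟨h5, -⟩ := h1 (isAbelian_mot.1 hA) X
    obtain ⟨h6, h7⟩ := h5 i
    have h8 : Module.Finite ℚ (T.toOld.num X (T.dim X - i)) := by
      have := (h5 (T.dim X - i)).1
      infer_instance
    rw [T.rank_cyc, T.rank_num, K.mult_h, ← Module.finrank_eq_rank, ← Module.finrank_eq_rank]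
    exact_mod_cast h7
  · intro X r hr hs f hf hn
    obtain ⟨n, h4⟩ := h2 X r hr ((K.small_old X r).1 hs) ⟨f, hf⟩ ((T.numTrivial_num _).2 hn)
    refine ⟨n, ?_⟩
    rw [T.iterate_cp]
    change T.cp (T.toOld.cpow f n) f = 0
    have h5 : T.toOld.cpow f n = (0 : T.CH (X ⊗ X)) := h4
    rw [h5, T.zero_cp]

end Cohomology

end CHS
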