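import Pool.Agent.CHM.Weil
import Pool.Agent.CHS.Coh

/-!
# The bridge to the library `CHM` (MP_6c4da4_ag)
-/

set_option autoImplicit false

open CategoryTheory MonoidalCategory CartesianMonoidalCategory Limits TensorProduct

universe v u w x

namespace CHS

variable {V : Type u} [Category.{v} V] [CartesianMonoidalCategory V]

namespace ChowTheory

variable (T : ChowTheory.{v, u, w} V)

theorem pull_zero {X Y : V} (f : X ⟶ Y) : T.pull f 0 = 0 := by
  have h := T.pull_rat f 0
  rwa [map_zero, map_zero] at h

theorem pull_one {X Y : V} (f : X ⟶ Y) : T.pull f 1 = 1 := by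
  have h := T.pull_rat f 1
  rwa [map_one, map_one] at h

theorem push_zero {X Y : V} (f : X ⟶ Y) : T.push f 0 = 0 := by
  have h := T.push_smul f 0 0
  rwa [zero_smul, zero_smul] at h

theorem algebraMap_pt (r : ℚ) (h : algebraMap ℚ (T.CH (𝟙_ V)) r = 0) : r = 0 := by
  by_contra hr
  apply T.point
  rw [← map_one (algebraMap ℚ (T.CH (𝟙_ V))), ← inv_mul_cancel₀ hr, map_mul, h, mul_zero]

theorem deg_pt (a : T.CH (𝟙_ V)) : algebraMap ℚ (T.CH (𝟙_ V)) (T.deg a) = a := by
  rw [← T.push_unit a, toUnit_unique (toUnit (𝟙_ V)) (𝟙 _), T.push_id]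

/-- The Chow theory in the sense of the library `CHM`. -/
noncomputable def toOld : CHM.ChowTheory.{v, u, w} V where
  dim := T.dim
  dim_unit := T.dim_unit
  dim_tensor := T.dim_tensor
  CH X := T.CH X
  ring _ := inferInstance
  algebra _ := inferInstance
  gr := T.gr
  graded X := (T.graded X).some
  pull f :=
    { toFun := T.pull f
      map_one' := T.pull_one f
      map_mul' := T.pull_mul f
      map_zero' := T.pull_zero f
      map_add' := T.pull_add f
      commutes' := T.pull_rat f }
  pull_id := T.pull_id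
  pull_comp := T.pull_comp
  pull_mem := T.pull_mem
  push f :=
    { toFun := T.push f
      map_add' := T.push_add f
      map_smul' := T.push_smul f }
  push_id := T.push_id
  push_comp := T.push_comp
  push_mem := T.push_mem
  projection := T.projection
  base_change g' f' f g h1 h2 := T.base_change g' f' f g h1 h2
  point := by
    constructor
    · intro r s h
      have h1 := T.algebraMap_pt (r - s) (by rw [map_sub, sub_eq_zero]; exact h)
      exact sub_eq_zero.1 h1
    · intro a
      exact ⟨T.deg a, T.deg_pt a⟩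
  union := T.union
  line := T.line

/-- The Frobenius endomorphisms in the sense of the library `CHM`. -/
def frob : CHM.FrobeniusMaps T.toOld where
  q := T.q
  one_lt := T.one_lt
  Fr := T.Fr
  natural := T.natural
  pull_Fr := T.pull_Fr
  push_Fr := T.push_Fr

theorem old_deg {X : V} (a : T.CH X) : T.toOld.deg (X := X) a = T.deg a := by
  have h1 := T.toOld.algebraMap_deg (X := X) a
  have h2 : T.toOld.push (toUnit X) a = algebraMap ℚ (T.CH (𝟙_ V)) (T.deg a) := T.push_unit a
  exact T.toOld.point.1 (h1.trans h2)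

theorem old_cp {X Y Z : V} (f : T.CH (X ⊗ Y)) (g : T.CH (Y ⊗ Z)) :
    T.toOld.cp (X := X) (Y := Y) (Z := Z) f g = T.cp f g := rfl

theorem old_gr {X Y : V} (φ : Y ⟶ X) : T.toOld.gr' φ = T.graph φ := rfl

theorem old_diag (X : V) : T.toOld.diag X = T.graph (𝟙 X) := rfl

theorem old_ten {X Y X' Y' : V} (f : T.CH (X ⊗ Y)) (f' : T.CH (X' ⊗ Y')) :
    T.toOld.ten (X := X) (Y := Y) (X' := X') (Y' := Y') f f' = T.ten f f' := rfl

theorem old_tr {X Y : V} (f : T.CH (X ⊗ Y)) : T.toOld.tr (X := X) (Y := Y) f = T.tr f := rfl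

end ChowTheory

namespace Cohomology

variable {T : ChowTheory.{v, u, w} V} (K : Cohomology.{v, u, w, x} T)

/-- The cohomology in the sense of the library `CHM`. -/
noncomputable def toOld : CHM.Cohomology.{v, u, w, x} T.toOld T.frob where
  H X := K.H X
  acg _ := inferInstance
  mod _ := inferInstance
  fin := K.fin
  gr := K.gr
  internal := K.internal
  sgn := K.sgn
  sgn_apply := K.sgn_apply
  act {X Y} :=
    AddMonoidHom.mk' (M := T.CH (X ⊗ Y)) K.act fun f g => LinearMap.ext fun x => K.act_add f g x
  act_diag := K.act_id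
  act_cp := K.act_cp
  act_mem := K.act_mem
  kunneth := K.kunneth
  kunneth_act := K.kunneth_act
  trace_formula X f hf :=
    (congrArg (fun r : ℚ => (r : ℂ)) (T.old_deg (T.pull (lift (𝟙 X) (𝟙 X)) f))).trans
      (K.trace_formula X f hf)
  weight := K.weight

end Cohomology

end CHS
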