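import Pool.Agent.CHM.Mot
import Pool.Agent.CHS.Old

/-!
# Composition of correspondences (MP_6c4da4_ag)
-/

set_option autoImplicit false

open CategoryTheory MonoidalCategory CartesianMonoidalCategory Limits

universe v u w

namespace CHS

variable {V : Type u} [Category.{v} V] [CartesianMonoidalCategory V]

namespace ChowTheory

variable (T : ChowTheory.{v, u, w} V)

theorem cp_assoc {X Y Z W : V} (f : T.CH (X ⊗ Y)) (g : T.CH (Y ⊗ Z)) (h : T.CH (Z ⊗ W)) :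
    T.cp (T.cp f g) h = T.cp f (T.cp g h) := T.toOld.cp_assoc f g h

theorem cp_add {X Y Z : V} (f : T.CH (X ⊗ Y)) (g g' : T.CH (Y ⊗ Z)) :
    T.cp f (g + g') = T.cp f g + T.cp f g' := T.toOld.cp_add f g g'

theorem add_cp {X Y Z : V} (f f' : T.CH (X ⊗ Y)) (g : T.CH (Y ⊗ Z)) :
    T.cp (f + f') g = T.cp f g + T.cp f' g := T.toOld.add_cp f f' g

theorem cp_zero {X Y Z : V} (f : T.CH (X ⊗ Y)) : T.cp f (0 : T.CH (Y ⊗ Z)) = 0 := by
  have h := T.cp_add f (0 : T.CH (Y ⊗ Z)) 0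
  rwa [add_zero, left_eq_add] at h

theorem zero_cp {X Y Z : V} (g : T.CH (Y ⊗ Z)) : T.cp (0 : T.CH (X ⊗ Y)) g = 0 := by
  have h := T.add_cp (0 : T.CH (X ⊗ Y)) 0 g
  rwa [add_zero, left_eq_add] at h

theorem cp_neg {X Y Z : V} (f : T.CH (X ⊗ Y)) (g : T.CH (Y ⊗ Z)) : T.cp f (-g) = -T.cp f g := by
  rw [eq_neg_iff_add_eq_zero, ← T.cp_add, neg_add_cancel, T.cp_zero]

theorem neg_cp {X Y Z : V} (f : T.CH (X ⊗ Y)) (g : T.CH (Y ⊗ Z)) : T.cp (-f) g = -T.cp f g := by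
  rw [eq_neg_iff_add_eq_zero, ← T.add_cp, neg_add_cancel, T.zero_cp]

theorem cp_mem {X Y Z : V} {i j k : ℤ} {f : T.CH (X ⊗ Y)} {g : T.CH (Y ⊗ Z)}
    (hf : f ∈ T.cyc (X ⊗ Y) i) (hg : g ∈ T.cyc (Y ⊗ Z) j) (h : i + j - T.dim Y = k) :
    T.cp f g ∈ T.cyc (X ⊗ Z) k := by
  subst h
  exact T.toOld.cp_mem hf hg

theorem zero_mem (X : V) (i : ℤ) : (0 : T.CH X) ∈ T.cyc X i := (T.gr X i).zero_mem

theorem add_mem {X : V} {i : ℤ} {a b : T.CH X} (ha : a ∈ T.cyc X i) (hb : b ∈ T.cyc X i) :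
    a + b ∈ T.cyc X i := (T.gr X i).add_mem ha hb

theorem neg_mem {X : V} {i : ℤ} {a : T.CH X} (ha : a ∈ T.cyc X i) : -a ∈ T.cyc X i :=
  (T.gr X i).neg_mem ha

end ChowTheory

namespace Mot

variable {T : ChowTheory.{v, u, w} V} {M N L : Mot T}

theorem isHom_id (M : Mot T) : M.IsHom M M.p :=
  ⟨by have h := M.deg; rwa [← add_sub_cancel_right (T.dim M.X) M.m] at h, M.idem, M.idem⟩

theorem isHom_comp (f : Hom M N) (g : Hom N L) : M.IsHom L (T.cp f.val g.val) :=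
  ⟨T.cp_mem f.prop.1 g.prop.1 (by ring), by rw [← T.cp_assoc, f.prop.2.1],
    by rw [T.cp_assoc, g.prop.2.2]⟩

theorem isHom_zero (M N : Mot T) : M.IsHom N 0 := ⟨T.zero_mem _ _, T.cp_zero _, T.zero_cp _⟩

theorem isHom_add (f g : Hom M N) : M.IsHom N (f.val + g.val) :=
  ⟨T.add_mem f.prop.1 g.prop.1, by rw [T.cp_add, f.prop.2.1, g.prop.2.1],
    by rw [T.add_cp, f.prop.2.2, g.prop.2.2]⟩

theorem isHom_neg (f : Hom M N) : M.IsHom N (-f.val) :=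
  ⟨T.neg_mem f.prop.1, by rw [T.cp_neg, f.prop.2.1], by rw [T.neg_cp, f.prop.2.2]⟩

end Mot

end CHS
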