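import Pool.Agent.CHM.Rig
import Pool.Agent.CHS.Lem

/-!
# Tensor products and duals of Chow motives: lemmas (MP_6c4da4_ag)
-/

set_option autoImplicit false

open CategoryTheory MonoidalCategory CartesianMonoidalCategory Limits

universe v u w

namespace CHS

variable {V : Type u} [Category.{v} V] [CartesianMonoidalCategory V]

variable (T : ChowTheory.{v, u, w} V)

theorem graph_mem (X : V) : T.graph (𝟙 X) ∈ T.cyc (X ⊗ X) (T.dim X) := T.toOld.diag_mem X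

theorem graph_cp (X : V) : T.cp (T.graph (𝟙 X)) (T.graph (𝟙 X)) = T.graph (𝟙 X) :=
  T.toOld.cp_diag (T.graph (𝟙 X))

variable {T}

theorem tensor_mem (M N : Mot T) :
    T.ten M.p N.p ∈ T.cyc ((M.X ⊗ N.X) ⊗ M.X ⊗ N.X) (T.dim (M.X ⊗ N.X)) := by
  rw [T.dim_tensor]
  exact T.toOld.ten_mem M.deg N.deg

theorem tensor_cp (M N : Mot T) : T.cp (T.ten M.p N.p) (T.ten M.p N.p) = T.ten M.p N.p := by
  have h := T.toOld.ten_cp M.p M.p N.p N.p
  have h2 : T.cp (T.ten M.p N.p) (T.ten M.p N.p) = T.ten (T.cp M.p M.p) (T.cp N.p N.p) := h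
  rw [h2, M.idem, N.idem]

theorem dual_mem (M : Mot T) : T.tr M.p ∈ T.cyc (M.X ⊗ M.X) (T.dim M.X) :=
  T.pull_mem _ _ _ M.deg

theorem dual_cp (M : Mot T) : T.cp (T.tr M.p) (T.tr M.p) = T.tr M.p := by
  have h := T.toOld.tr_cp M.p M.p
  have h2 : T.tr (T.cp M.p M.p) = T.cp (T.tr M.p) (T.tr M.p) := h
  rw [← h2, M.idem]

end CHS
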