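import Pool.Agent.CHS.Num

/-!
# Multiplicities of the eigenvalues of Frobenius (MP_6c4da4_ag)
-/

set_option autoImplicit false

open CategoryTheory MonoidalCategory CartesianMonoidalCategory Limits

universe v u w x

namespace CHM.Cohomology

variable {V : Type u} [Category.{v} V] [CartesianMonoidalCategory V]
  {T : ChowTheory.{v, u, w} V} {R : FrobeniusMaps T} (K : Cohomology.{v, u, w, x} T R)

theorem act_p_fr (M : Mot T) (y : K.H M.X) : K.act M.p (K.fr M.X y) = K.fr M.X (K.act M.p y) := by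
  unfold fr
  rw [← K.act_cp, ← K.act_cp, R.cp_p_gr']

theorem act_p_sub_pow (M : Mot T) (z : ℂ) (n : ℕ) (y : K.H M.X) :
    K.act M.p ((((K.fr M.X : Module.End ℂ (K.H M.X)) - z • 1) ^ n) y) =
      (((K.fr M.X : Module.End ℂ (K.H M.X)) - z • 1) ^ n) (K.act M.p y) := by
  induction n with
  | zero => rfl
  | succ n ih =>
    rw [pow_succ']
    change K.act M.p (K.fr M.X ((((K.fr M.X : Module.End ℂ (K.H M.X)) - z • 1) ^ n) y) -
      z • ((((K.fr M.X : Module.End ℂ (K.H M.X)) - z • 1) ^ n) y)) = _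
    rw [map_sub, map_smul, K.act_p_fr, ih]
    rfl

theorem onMot_sub_pow (M : Mot T) (z : ℂ) (n : ℕ) (y : K.H M.X) (hy : K.act M.p y = y) :
    (((K.act (R.onMot M).1 : Module.End ℂ (K.H M.X)) - ((R.q : ℂ) ^ (-M.m) * z) • 1) ^ n) y =
      ((R.q : ℂ) ^ (-M.m)) ^ n • (((K.fr M.X : Module.End ℂ (K.H M.X)) - z • 1) ^ n) y := by
  induction n with
  | zero => rw [pow_zero, pow_zero, pow_zero, one_smul]
  | succ n ih =>
    have h2 : K.act M.p ((((K.fr M.X : Module.End ℂ (K.H M.X)) - z • 1) ^ n) y) =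
        (((K.fr M.X : Module.End ℂ (K.H M.X)) - z • 1) ^ n) y := by
      rw [K.act_p_sub_pow, hy]
    rw [pow_succ']
    change K.act (R.onMot M).1 ((((K.act (R.onMot M).1 : Module.End ℂ (K.H M.X)) -
      ((R.q : ℂ) ^ (-M.m) * z) • 1) ^ n) y) - ((R.q : ℂ) ^ (-M.m) * z) •
      ((((K.act (R.onMot M).1 : Module.End ℂ (K.H M.X)) -
      ((R.q : ℂ) ^ (-M.m) * z) • 1) ^ n) y) = _
    rw [ih, map_smul, K.act_onMot M _ h2, pow_succ' ((K.fr M.X : Module.End ℂ (K.H M.X)) - z • 1)]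
    change _ = ((R.q : ℂ) ^ (-M.m)) ^ (n + 1) •
      (K.fr M.X ((((K.fr M.X : Module.End ℂ (K.H M.X)) - z • 1) ^ n) y) -
        z • ((((K.fr M.X : Module.End ℂ (K.H M.X)) - z • 1) ^ n) y))
    rw [smul_sub, smul_smul, smul_smul, smul_smul, pow_succ]
    congr 2
    ring

theorem map_gen (M : Mot T) (z : ℂ) :
    Submodule.map (K.act M.p) (Module.End.maxGenEigenspace (K.fr M.X) z) =
      K.real M ⊓ Module.End.maxGenEigenspace (K.act (R.onMot M).1) ((R.q : ℂ) ^ (-M.m) * z) := by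
  have hq : (R.q : ℂ) ≠ 0 := by
    have := R.q_ne
    exact_mod_cast this
  ext y
  rw [Submodule.mem_inf, Module.End.mem_maxGenEigenspace, Submodule.mem_map]
  constructor
  · rintro ⟨a, ha, rfl⟩
    obtain ⟨n, hn⟩ := Module.End.mem_maxGenEigenspace _ _ _ |>.1 ha
    have h1 : K.act M.p (K.act M.p a) = K.act M.p a := by
      rw [← K.act_cp, M.idem]
    refine ⟨h1, n, ?_⟩
    rw [K.onMot_sub_pow M z n _ h1, ← K.act_p_sub_pow, hn, map_zero, smul_zero]
  · rintro ⟨hy, n, hn⟩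
    refine ⟨y, Module.End.mem_maxGenEigenspace _ _ _ |>.2 ⟨n, ?_⟩, hy⟩
    rw [K.onMot_sub_pow M z n _ hy] at hn
    rcases smul_eq_zero.1 hn with h1 | h1
    · exact absurd h1 (pow_ne_zero _ (zpow_ne_zero _ hq))
    · exact h1

/-- a generalized eigenvector of Frobenius for `q ^ i` has degree `2i` -/
theorem gen_le (X : V) (i : ℤ) :
    Module.End.maxGenEigenspace (K.fr X) ((R.q : ℂ) ^ i) ≤ K.gr X (2 * i) := by
  intro y hy
  obtain ⟨n, hn⟩ := Module.End.mem_maxGenEigenspace _ _ _ |>.1 hy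
  obtain ⟨s, t, ht, hyt⟩ := K.exists_sum X y
  rw [hyt] at hn ⊢
  refine Submodule.sum_mem _ (fun j hj => ?_)
  by_cases h0 : t j = 0
  · rw [h0]
    exact zero_mem _
  · have h2 := K.sum_eq_zero X s (fun j => (((K.fr X : Module.End ℂ (K.H X)) -
      ((R.q : ℂ) ^ i) • 1) ^ n) (t j)) (fun j => K.sub_pow_mem X _ j n _ (ht j))
      (by rw [← map_sum]; exact hn) j hj
    have h3 := K.degree_of_gen X i j n (t j) (ht j) h0 h2
    rw [← h3]
    exact ht j

theorem mult_eq (X : V) (i : ℤ) : K.mult X i =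
    Module.finrank ℂ (Module.End.maxGenEigenspace (K.fr X) ((R.q : ℂ) ^ i)) := by
  unfold mult frob
  rw [finrank_restrict, inf_eq_right.2 (K.gen_le X i)]

end CHM.Cohomology

namespace CHS

variable {V : Type u} [Category.{v} V] [CartesianMonoidalCategory V]

namespace Cohomology

variable {T : ChowTheory.{v, u, w} V} (K : Cohomology.{v, u, w, x} T)

theorem mult_old (M : Mot T) (z : ℂ) :
    K.mult M z = K.toOld.multM M.old ((T.q : ℂ) ^ (-M.m) * z) := by
  rw [K.toOld.multM_eq]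
  have h := K.toOld.map_gen M.old z
  have h2 := congrArg (fun S : Submodule ℂ (K.H M.X) => Module.finrank ℂ S) h
  exact h2

theorem finsum_mult (M : Mot T) : ∑ᶠ z : ℂ, K.mult M z ^ 2 =
    ∑ z ∈ (K.toOld.frobM M.old).charpoly.roots.toFinset, K.toOld.multM M.old z ^ 2 := by
  have hq : (T.q : ℂ) ^ (-M.m) ≠ 0 := by
    have h := T.one_lt
    exact zpow_ne_zero _ (by exact_mod_cast (by omega : T.q ≠ 0))
  have h1 : ∑ᶠ z : ℂ, K.mult M z ^ 2 = ∑ᶠ z : ℂ, K.toOld.multM M.old z ^ 2 := by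
    have h2 := finsum_comp_equiv (Equiv.mulLeft₀ ((T.q : ℂ) ^ (-M.m)) hq)
      (f := fun z => K.toOld.multM M.old z ^ 2)
    rw [← h2]
    exact finsum_congr fun z => by
      rw [K.mult_old]
      rfl
  rw [h1]
  refine finsum_eq_sum_of_support_subset _ ?_
  intro z hz
  rw [Finset.mem_coe, Multiset.mem_toFinset]
  by_contra hn
  apply hz
  have h3 : K.toOld.multM M.old z = 0 := by
    unfold CHM.Cohomology.multM
    rw [← Polynomial.count_roots]
    exact Multiset.count_eq_zero.2 hn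
  change K.toOld.multM M.old z ^ 2 = 0
  rw [h3]
  rfl

theorem tateFormula_iff (M : Mot T) : K.TateFormula M ↔ K.toOld.TateFormula M.old := by
  unfold TateFormula CHM.Cohomology.TateFormula
  rw [Mot.numRank_end, K.finsum_mult]

theorem simple_iff (M : Mot T) :
    (∀ z, K.mult M z ≤ 1) ↔ (K.toOld.frobM M.old).charpoly.roots.Nodup := by
  have hq : (T.q : ℂ) ^ (-M.m) ≠ 0 := by
    have h := T.one_lt
    exact zpow_ne_zero _ (by exact_mod_cast (by omega : T.q ≠ 0))
  rw [Multiset.nodup_iff_count_le_one]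
  constructor
  · intro h z
    have h1 := h (((T.q : ℂ) ^ (-M.m))⁻¹ * z)
    rw [K.mult_old, mul_inv_cancel_left₀ hq] at h1
    rw [Polynomial.count_roots]
    exact h1
  · intro h z
    rw [K.mult_old]
    have h1 := h ((T.q : ℂ) ^ (-M.m) * z)
    rw [Polynomial.count_roots] at h1
    exact h1

end Cohomology

end CHS
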