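import Pool.Agent.CHM.Tate
import Pool.Agent.CHS.Equiv

/-!
# Numerically trivial cycles (MP_6c4da4_ag)
-/

set_option autoImplicit false

open CategoryTheory MonoidalCategory CartesianMonoidalCategory Limits

universe v u w

namespace CHS

variable {V : Type u} [Category.{v} V] [CartesianMonoidalCategory V]

namespace ChowTheory

variable (T : ChowTheory.{v, u, w} V)

theorem deg_add {X : V} (a b : T.CH X) : T.deg (a + b) = T.deg a + T.deg b := by
  rw [← T.old_deg, ← T.old_deg, ← T.old_deg]
  exact map_add _ _ _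

theorem deg_smul {X : V} (r : ℚ) (a : T.CH X) : T.deg (r • a) = r * T.deg a := by
  rw [← T.old_deg, ← T.old_deg]
  exact map_smul _ _ _

theorem deg_zero (X : V) : T.deg (0 : T.CH X) = 0 := by
  rw [← T.old_deg]
  exact map_zero _

theorem mul_mem {X : V} {i j : ℤ} {a b : T.CH X} (ha : a ∈ T.cyc X i) (hb : b ∈ T.cyc X j) :
    a * b ∈ T.cyc X (i + j) := T.toOld.mul_mem ha hb

theorem one_mem (X : V) : (1 : T.CH X) ∈ T.cyc X 0 := T.toOld.one_mem X

/-- cycles of positive dimension have degree zero -/
theorem deg_eq_zero {X : V} {i : ℤ} {a : T.CH X} (ha : a ∈ T.cyc X i) (h : i ≠ T.dim X) :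
    T.deg a = 0 := by
  have h1 : algebraMap ℚ (T.CH (𝟙_ V)) (T.deg a) ∈ T.gr (𝟙_ V) (i + T.dim (𝟙_ V) - T.dim X) := by
    rw [← T.push_unit a]
    exact T.push_mem _ _ _ ha
  have h2 : algebraMap ℚ (T.CH (𝟙_ V)) (T.deg a) ∈ T.gr (𝟙_ V) 0 := by
    rw [Algebra.algebraMap_eq_smul_one]
    exact Submodule.smul_mem _ _ (T.one_mem _)
  have h3 : i + T.dim (𝟙_ V) - T.dim X ≠ 0 := by
    rw [T.dim_unit]
    omega
  letI := (T.graded (𝟙_ V)).some
  have h4 := DirectSum.decompose_of_mem_ne (T.gr (𝟙_ V)) h1 h3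
  rw [DirectSum.decompose_of_mem_same (T.gr (𝟙_ V)) h2] at h4
  exact T.algebraMap_pt _ h4

/-- every property which is additive holds for all cycles if it holds for homogeneous cycles -/
theorem induction {X : V} {P : T.CH X → Prop} (h0 : P 0) (h1 : ∀ (i : ℤ), ∀ a ∈ T.cyc X i, P a)
    (h2 : ∀ a b, P a → P b → P (a + b)) (a : T.CH X) : P a := by
  letI := (T.graded X).some
  exact DirectSum.Decomposition.inductionOn (T.gr X) h0 (fun {i} m => h1 i m.1 m.2) h2 a

theorem numTrivial_iff {X : V} {i : ℤ} {a : T.CH X} (ha : a ∈ T.cyc X i) :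
    T.NumTrivial a ↔ ∀ b ∈ T.cyc X (T.dim X - i), T.deg (a * b) = 0 := by
  constructor
  · exact fun h b _ => h b
  · intro h b
    refine T.induction (P := fun b => T.deg (a * b) = 0) ?_ ?_ ?_ b
    · rw [mul_zero, T.deg_zero]
    · intro j b hb
      by_cases hj : j = T.dim X - i
      · subst hj
        exact h b hb
      · exact T.deg_eq_zero (T.mul_mem ha hb) (by omega)
    · intro b c hb hc
      rw [mul_add, T.deg_add, hb, hc, add_zero]

/-- if the numerically trivial homogeneous cycles vanish, so do all numerically trivial cycles -/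
theorem eq_zero_of_numTrivial {X : V}
    (h : ∀ (i : ℤ), ∀ a ∈ T.cyc X i, T.NumTrivial a → a = 0) (a : T.CH X) (ha : T.NumTrivial a) :
    a = 0 := by
  classical
  letI := (T.graded X).some
  have hcomp : ∀ i, ((DirectSum.decompose (T.gr X) a i : T.gr X i) : T.CH X) = 0 := by
    intro i
    refine h i _ (DirectSum.decompose (T.gr X) a i).2 ?_
    refine (T.numTrivial_iff (DirectSum.decompose (T.gr X) a i).2).2 fun b hb => ?_
    have h1 : T.deg (a * b) =
        ∑ j ∈ (DirectSum.decompose (T.gr X) a).support,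
          T.deg ((DirectSum.decompose (T.gr X) a j : T.CH X) * b) := by
      conv_lhs => rw [← DirectSum.sum_support_decompose (T.gr X) a]
      rw [Finset.sum_mul]
      have h2 : ∀ (s : Finset ℤ) (f : ℤ → T.CH X), T.deg (∑ j ∈ s, f j) = ∑ j ∈ s, T.deg (f j) := by
        intro s f
        induction s using Finset.induction_on with
        | empty => rw [Finset.sum_empty, Finset.sum_empty, T.deg_zero]
        | insert j s hj ih => rw [Finset.sum_insert hj, Finset.sum_insert hj, T.deg_add, ih]
      exact h2 _ _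
    have h3 : ∀ j, j ≠ i → T.deg ((DirectSum.decompose (T.gr X) a j : T.CH X) * b) = 0 := by
      intro j hj
      refine T.deg_eq_zero (T.mul_mem (DirectSum.decompose (T.gr X) a j).2 hb) (by omega)
    by_cases hi : i ∈ (DirectSum.decompose (T.gr X) a).support
    · rw [Finset.sum_eq_single_of_mem i hi (fun j _ hj => h3 j hj)] at h1
      rw [← h1]
      exact ha b
    · have h4 : DirectSum.decompose (T.gr X) a i = 0 := by
        by_contra hne
        exact hi (DFinsupp.mem_support_iff.2 hne)
      rw [h4]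
      change T.deg ((0 : T.CH X) * b) = 0
      rw [zero_mul, T.deg_zero]
  rw [← DirectSum.sum_support_decompose (T.gr X) a]
  exact Finset.sum_eq_zero fun i _ => hcomp i

/-- the rank of the intersection form as the rank of a quotient -/
theorem numRank_eq {X : V} {W : Type w} [AddCommGroup W] [Module ℚ W] (φ : W →ₗ[ℚ] T.CH X)
    (N : Submodule ℚ W) (hN : ∀ a, a ∈ N ↔ T.NumTrivial (φ a)) :
    T.numRank (Set.range φ) = Module.rank ℚ (W ⧸ N) := by
  let Φ : W →ₗ[ℚ] (T.CH X → ℚ) :=
    { toFun := fun a b => T.deg (φ a * b)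
      map_add' := fun a a' => by
        funext b
        rw [map_add, add_mul, T.deg_add]
        rfl
      map_smul' := fun r a => by
        funext b
        rw [map_smul, smul_mul_assoc, T.deg_smul]
        rfl }
  have h1 : (fun a b : T.CH X => T.deg (a * b)) '' Set.range φ = Set.range Φ := by
    rw [← Set.range_comp]
    rfl
  have h2 : Submodule.span ℚ (Set.range Φ) = LinearMap.range Φ := by
    rw [← LinearMap.coe_range, Submodule.span_eq]
  have h3 : N = LinearMap.ker Φ := by
    ext a
    rw [hN, LinearMap.mem_ker]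
    exact ⟨fun h => funext h, fun h b => congrFun h b⟩
  unfold numRank
  rw [h1, h2, h3]
  exact (LinearMap.quotKerEquivRange Φ).rank_eq.symm

end ChowTheory

namespace Mot

variable {T : ChowTheory.{v, u, w} V}

theorem numHom_iff {M N : Mot T} (f : M.old ⟶ N.old) :
    f ∈ CHM.Mot.numHom M.old N.old ↔ T.NumTrivial f.1 := by
  rw [T.numTrivial_iff (i := T.dim M.X + N.m - M.m) f.2.1]
  constructor
  · intro h b hb
    rw [← T.old_deg]
    exact h b hb
  · intro h b hb
    exact (T.old_deg _).trans (h b hb)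

theorem numRank_end (M : Mot T) :
    T.numRank (Set.range (Hom.val : Hom M M → T.CH (M.X ⊗ M.X))) =
      Module.rank ℚ ((M.old ⟶ M.old) ⧸ CHM.Mot.numHom M.old M.old) := by
  let φ : (M.old ⟶ M.old) →ₗ[ℚ] T.CH (M.X ⊗ M.X) :=
    { toFun := fun f => f.1
      map_add' := fun _ _ => rfl
      map_smul' := fun _ _ => rfl }
  have h1 : Set.range (Hom.val : Hom M M → T.CH (M.X ⊗ M.X)) = Set.range φ := by
    ext a
    constructor
    · rintro ⟨f, rfl⟩
      exact ⟨oldHom f, rfl⟩
    · rintro ⟨f, rfl⟩
      exact ⟨newHom f, rfl⟩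
  rw [h1]
  exact T.numRank_eq φ _ fun f => numHom_iff f

end Mot

end CHS
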