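import Pool.Agent.CHS.Ab
import Pool.Agent.CHS.Gen
import Pool.Agent.CHS.Mult
import Pool.Agent.CHM.Growth

/-!
# Rational and numerical equivalence on the generated motives (MP_6c4da4_ag)
-/

set_option autoImplicit false

open CategoryTheory MonoidalCategory CartesianMonoidalCategory Limits

universe v u w x

namespace CHM.Cohomology

variable {V : Type u} [Category.{v} V] [CartesianMonoidalCategory V]
  {T : ChowTheory.{v, u, w} V} {R : FrobeniusMaps T} (K : Cohomology.{v, u, w, x} T R)

theorem gen_of_iso {M N : Mot T} (e : M ≅ N) (h : K.Gen M) : K.Gen N :=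
  Gen.summand M N e.inv e.hom e.inv_hom_id h

/-- The generated motives as a property of objects. -/
abbrev genProp : ObjectProperty (Mot T) := fun M => K.Gen M

instance : K.genProp.IsClosedUnderIsomorphisms := ⟨fun e h => K.gen_of_iso e h⟩

theorem gen_zero : ∃ Z : Mot T, K.Gen Z ∧ (𝟙 Z : Z ⟶ Z) = 0 := by
  obtain ⟨Z, hZ⟩ := (inferInstance : HasZeroObject (Mot T))
  refine ⟨Z, Gen.summand (𝟙_ (Mot T)) Z 0 0 ?_ Gen.unit, ?_⟩
  · exact hZ.eq_of_src _ _
  · exact hZ.eq_of_src _ _

instance hasFiniteProducts_genCat : HasFiniteProducts K.genProp.FullSubcategory := by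
  obtain ⟨Z, hZ, h0⟩ := K.gen_zero
  have h1 : HasZeroObject K.genProp.FullSubcategory := by
    refine ⟨⟨Z, hZ⟩, ?_⟩
    rw [IsZero.iff_id_eq_zero]
    apply ObjectProperty.hom_ext
    exact h0
  have h2 : HasBinaryBiproducts K.genProp.FullSubcategory := by
    refine ⟨fun M N => ?_⟩
    let b : BinaryBicone M N :=
      { pt := ⟨M.obj ⊞ N.obj, Gen.sum M.obj N.obj M.property N.property⟩
        fst := ObjectProperty.homMk biprod.fst
        snd := ObjectProperty.homMk biprod.snd
        inl := ObjectProperty.homMk biprod.inl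
        inr := ObjectProperty.homMk biprod.inr
        inl_fst := by
          apply ObjectProperty.hom_ext
          exact biprod.inl_fst
        inl_snd := by
          apply ObjectProperty.hom_ext
          exact biprod.inl_snd
        inr_fst := by
          apply ObjectProperty.hom_ext
          exact biprod.inr_fst
        inr_snd := by
          apply ObjectProperty.hom_ext
          exact biprod.inr_snd }
    refine hasBinaryBiproduct_of_total b ?_
    apply ObjectProperty.hom_ext
    exact biprod.total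
  exact hasFiniteProducts_of_has_binary_and_terminal

theorem finrank_one' : Module.finrank ℂ (K.H (𝟙_ V)) = 1 := K.finrank_one

end CHM.Cohomology

namespace CHS

variable {V : Type u} [Category.{v} V] [CartesianMonoidalCategory V]

namespace Cohomology

variable {T : ChowTheory.{v, u, w} V} (K : Cohomology.{v, u, w, x} T)

theorem mult_unit (z : ℂ) (p : T.CH (𝟙_ V ⊗ 𝟙_ V)) (m : ℤ)
    (h1 : p ∈ T.cyc (𝟙_ V ⊗ 𝟙_ V) (T.dim (𝟙_ V))) (h2 : T.cp p p = p) :
    K.mult ⟨𝟙_ V, p, m, h1, h2⟩ z ≤ 1 := by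
  have := K.fin (𝟙_ V)
  have h3 : Module.finrank ℂ (K.H (𝟙_ V)) = 1 := K.toOld.finrank_one
  rw [← h3]
  exact Submodule.finrank_le _

/-- the direct sum of two generated motives -/
theorem gen_sum {M N L : Mot T} (e : L.old ≅ M.old ⊞ N.old) (hM : K.Gen M) (hN : K.Gen N) :
    K.Gen L := by
  refine Gen.sum M N L (Mot.newHom (biprod.inl ≫ e.inv)) (Mot.newHom (e.hom ≫ biprod.fst))
    (Mot.newHom (biprod.inr ≫ e.inv)) (Mot.newHom (e.hom ≫ biprod.snd)) ?_ ?_ ?_ hM hN
  · have h : (biprod.inl ≫ e.inv) ≫ e.hom ≫ biprod.fst = 𝟙 M.old := by simp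
    exact congrArg Mot.newHom h
  · have h : (biprod.inr ≫ e.inv) ≫ e.hom ≫ biprod.snd = 𝟙 N.old := by simp
    exact congrArg Mot.newHom h
  · have h : (e.hom ≫ biprod.fst) ≫ biprod.inl ≫ e.inv + (e.hom ≫ biprod.snd) ≫ biprod.inr ≫ e.inv
        = 𝟙 L.old := by
      rw [Category.assoc, Category.assoc, ← Category.assoc biprod.fst, ← Category.assoc biprod.snd,
        ← Preadditive.comp_add, ← Preadditive.add_comp, biprod.total, Category.id_comp, e.hom_inv_id]
    exact congrArg Mot.newHom h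

theorem gen_old {M : CHM.Mot T.toOld} (h : K.toOld.Gen M) : K.Gen (Mot.new M) := by
  induction h with
  | tate M h => exact Gen.tate _ ((K.tateFormula_iff _).2 h)
  | simple M h => exact Gen.simple _ ((K.simple_iff _).2 h)
  | unit => exact Gen.simple _ fun z => K.mult_unit z _ _ _ _
  | tensor M N _ _ hM hN => exact Gen.tensor _ _ hM hN
  | dual M _ hM => exact Gen.dual _ hM
  | sum M N _ _ hM hN => exact K.gen_sum (Iso.refl _) hM hN
  | summand M N i p h _ hM =>
    refine Gen.summand (Mot.new M) (Mot.new N) (Mot.newHom (M := Mot.new N) (N := Mot.new M) i)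
      (Mot.newHom (M := Mot.new M) (N := Mot.new N) p) ?_ hM
    exact congrArg (Mot.newHom (M := Mot.new N) (N := Mot.new N)) h

theorem old_gen {M : Mot T} (h : K.Gen M) : K.toOld.Gen M.old := by
  induction h with
  | tate M h => exact CHM.Cohomology.Gen.tate _ ((K.tateFormula_iff _).1 h)
  | simple M h => exact CHM.Cohomology.Gen.simple _ ((K.simple_iff _).1 h)
  | tensor M N _ _ hM hN => exact CHM.Cohomology.Gen.tensor _ _ hM hN
  | dual M _ hM => exact CHM.Cohomology.Gen.dual _ hM
  | sum M N L i p j q h1 h2 h3 _ _ hM hN =>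
    refine CHM.Cohomology.Gen.summand (M.old ⊞ N.old) L.old
      (Mot.oldHom p ≫ biprod.inl + Mot.oldHom q ≫ biprod.inr)
      (biprod.fst ≫ Mot.oldHom i + biprod.snd ≫ Mot.oldHom j) ?_
      (CHM.Cohomology.Gen.sum _ _ hM hN)
    have h4 : Mot.oldHom p ≫ Mot.oldHom i + Mot.oldHom q ≫ Mot.oldHom j = 𝟙 L.old :=
      congrArg Mot.oldHom h3
    rw [← h4]
    simp
  | summand M N i p h _ hM =>
    exact CHM.Cohomology.Gen.summand _ _ (Mot.oldHom i) (Mot.oldHom p) (congrArg Mot.oldHom h) hM

theorem gen_iff (M : Mot T) : K.Gen M ↔ K.toOld.Gen M.old :=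
  ⟨K.old_gen, fun h => K.gen_old h⟩

theorem isAbelian_mot : IsAbelian (Mot T) ↔ MotP.IsAbelian (CHM.Mot T.toOld) :=
  (isAbelian_iff_of_equivalence (oldFunctor T)).trans isAbelian_iff_motP

theorem isAbelian_genCat :
    IsAbelian K.GenCat ↔ MotP.IsAbelian K.toOld.GenCat :=
  (isAbelian_full_iff (oldFunctor T) (fun M : Mot T => K.Gen M) K.toOld.genProp K.gen_iff).trans
    isAbelian_iff_motP

theorem num_old {X : V} {i : ℤ} (h : T.toOld.num X i = ⊥) {a : T.CH X} (ha : a ∈ T.cyc X i)
    (hn : T.NumTrivial a) : a = 0 := by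
  have h1 : (⟨a, ha⟩ : T.toOld.gr X i) ∈ T.toOld.num X i := by
    intro b _
    exact (T.old_deg _).trans (hn b)
  rw [h, Submodule.mem_bot] at h1
  exact congrArg Subtype.val h1

/-- Rational and numerical equivalence. -/
theorem ratNum :
    (IsAbelian (Mot T) → IsAbelian K.GenCat) ∧
    (IsAbelian K.GenCat ↔
      ∀ (M N : Mot T) (f : M ⟶ N), K.Gen M → K.Gen N → T.NumTrivial (Mot.Hom.val f) → f = 0) ∧
    (IsAbelian K.GenCat → ∀ X : V, K.Gen (Mot.h T X) → ∀ a : T.CH X, T.NumTrivial a → a = 0) := by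
  obtain ⟨h1, h2, h3⟩ := K.toOld.ratNum
  rw [isAbelian_mot, isAbelian_genCat]
  refine ⟨h1, h2.trans ⟨?_, ?_⟩, ?_⟩
  · intro h M N f hM hN hf
    have h4 := h M.old N.old (K.old_gen hM) (K.old_gen hN)
    have h5 : Mot.oldHom f ∈ CHM.Mot.numHom M.old N.old := (Mot.numHom_iff (Mot.oldHom f)).2 hf
    rw [h4, Submodule.mem_bot] at h5
    exact congrArg Mot.newHom h5
  · intro h M N hM hN
    rw [eq_bot_iff]
    intro f hf
    rw [Submodule.mem_bot]
    have h4 := h (Mot.new M) (Mot.new N) (Mot.newHom f) (K.gen_old hM) (K.gen_old hN)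
      ((Mot.numHom_iff (M := Mot.new M) (N := Mot.new N) f).1 hf)
    exact congrArg Mot.oldHom h4
  · intro hA X hX
    exact T.eq_zero_of_numTrivial fun i a ha hn => num_old (h3 hA X (K.old_gen hX) i) ha hn

end Cohomology

end CHS
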